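import Pool.Agent.X119.Cong

/-!
# The conjectured congruences fail for primes `p ≡ 11 (mod 24)`, e.g. for `p = 11`
-/

set_option autoImplicit false

namespace Pool.Agent.Results.MP_0a3b9a_nt.SignFails

open Finset Pool.Agent.X119.Cong

/-- `S_1(p)` -/
def S1 (p : ℕ) : ℚ := ∑ k ∈ range p, binom (-1 / 3) k * binom (-1 / 6) k * (27 / 2) ^ k

/-- `S_2(p)` -/
def S2 (p : ℕ) : ℚ := ∑ k ∈ range p, binom (-2 / 3) k * binom (-5 / 6) k * (27 / 2) ^ k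

/-- `ε_p` -/
def eps (p : ℕ) : ℚ := if p % 3 = 1 then 1 else -25 / 2

/-- `R(p)` for `p = c ^ 2 + 2 d ^ 2` -/
def R (p : ℕ) (c d : ℤ) : ℚ :=
  if p % 24 = 1 ∨ p % 24 = 19 then (-1) ^ (p / 8) * legQ (-2 - c / d) p * (2 * c - p / (2 * c))
  else (-1) ^ (p / 8) * legQ (2 + c / d) p * (10 * d - 5 * p / (4 * d))

theorem fail11 (d : ℤ) (hd : d = 1 ∨ d = -1) : ¬ Cong 11 2 (S1 11) (R 11 (-3) d) := by
  rcases hd with rfl | rfl
  · refine not_cong' (z := -(-1) * (10 - 55 / 4)) ?_ (by decide +kernel)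
    have h1 : legQ (2 + ((-3 : ℤ) : ℚ) / ((1 : ℤ) : ℚ)) 11 = -1 := by
      have e : (2 + ((-3 : ℤ) : ℚ) / ((1 : ℤ) : ℚ)) = -1 := by norm_num
      rw [e, legQ]
      norm_num
    rw [R, if_neg (by norm_num), h1]
    norm_num
  · refine not_cong' (z := -(1) * (-10 + 55 / 4)) ?_ (by decide +kernel)
    have h1 : legQ (2 + ((-3 : ℤ) : ℚ) / ((-1 : ℤ) : ℚ)) 11 = 1 := by
      have e : (2 + ((-3 : ℤ) : ℚ) / ((-1 : ℤ) : ℚ)) = 5 := by norm_num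
      rw [e, legQ]
      norm_num
    rw [R, if_neg (by norm_num), h1]
    norm_num

theorem fail59 (d : ℤ) (hd : d = 5 ∨ d = -5) : ¬ Cong 59 2 (S1 59) (R 59 (-3) d) := by
  rcases hd with rfl | rfl
  · refine not_cong' (z := -(1) * (50 - 295 / 20)) ?_ (by decide +kernel)
    have h1 : legQ (2 + ((-3 : ℤ) : ℚ) / ((5 : ℤ) : ℚ)) 59 = 1 := by
      have e : (2 + ((-3 : ℤ) : ℚ) / ((5 : ℤ) : ℚ)) = 7 / 5 := by norm_num
      rw [e, legQ]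
      norm_num
    rw [R, if_neg (by norm_num), h1]
    norm_num
  · refine not_cong' (z := -(-1) * (-50 + 295 / 20)) ?_ (by decide +kernel)
    have h1 : legQ (2 + ((-3 : ℤ) : ℚ) / ((-5 : ℤ) : ℚ)) 59 = -1 := by
      have e : (2 + ((-3 : ℤ) : ℚ) / ((-5 : ℤ) : ℚ)) = 13 / 5 := by norm_num
      rw [e, legQ]
      norm_num
    rw [R, if_neg (by norm_num), h1]
    norm_num

theorem fail83 (d : ℤ) (hd : d = 1 ∨ d = -1) : ¬ Cong 83 2 (S1 83) (R 83 9 d) := by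
  rcases hd with rfl | rfl
  · refine not_cong' (z := (10 - 415 / 4)) ?_ (by decide +kernel)
    have h1 : legQ (2 + ((9 : ℤ) : ℚ) / ((1 : ℤ) : ℚ)) 83 = 1 := by
      have e : (2 + ((9 : ℤ) : ℚ) / ((1 : ℤ) : ℚ)) = 11 := by norm_num
      rw [e, legQ]
      norm_num
    rw [R, if_neg (by norm_num), h1]
    norm_num
  · refine not_cong' (z := (-1) * (-10 + 415 / 4)) ?_ (by decide +kernel)
    have h1 : legQ (2 + ((9 : ℤ) : ℚ) / ((-1 : ℤ) : ℚ)) 83 = -1 := by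
      have e : (2 + ((9 : ℤ) : ℚ) / ((-1 : ℤ) : ℚ)) = -7 := by norm_num
      rw [e, legQ]
      norm_num
    rw [R, if_neg (by norm_num), h1]
    norm_num

/-- The congruence `S_1(p) ≡ R(p) (mod p ^ 2)` fails for `p = 11, 59, 83` (for both signs of `d`), so that the assertion
of Q1 is false. -/
theorem result :
    ((∀ d : ℤ, d = 1 ∨ d = -1 → ¬ Cong 11 2 (S1 11) (R 11 (-3) d)) ∧
      (∀ d : ℤ, d = 5 ∨ d = -5 → ¬ Cong 59 2 (S1 59) (R 59 (-3) d)) ∧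
      (∀ d : ℤ, d = 1 ∨ d = -1 → ¬ Cong 83 2 (S1 83) (R 83 9 d))) ∧
    ¬ ∀ p : ℕ, p.Prime → (p % 8 = 1 ∨ p % 8 = 3) → p ≠ 3 → ∀ c d : ℤ, (p : ℤ) = c ^ 2 + 2 * d ^ 2 → c % 4 = 1 →
      Cong p 2 (S1 p) (eps p * S2 p) ∧ Cong p 2 (S1 p) (R p c d) :=
  ⟨⟨fail11, fail59, fail83⟩, fun h => fail11 1 (Or.inl rfl)
    (h 11 (by norm_num) (by norm_num) (by norm_num) (-3) 1 (by norm_num) (by norm_num)).2⟩

end Pool.Agent.Results.MP_0a3b9a_nt.SignFails
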